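import Mathlib

/-!
# The Zariski topology of the infinite power of the symmetric group on three letters

The Zariski topology of `G = S_3 ^ ℕ` (closed subbase: the solution sets of the equations in one
variable with constants from `G`) is the product topology, so it is compact and Hausdorff, and as `G` is
infinite it is not Noetherian.  The argument is the one of `Pool.Agent.S00905`, with the words in
`G * ℤ`.
-/

set_option autoImplicit false

namespace Pool.Agent.TH960.ZarCompact

/-- The symmetric group on three letters. -/
abbrev F : Type := Equiv.Perm (Fin 3)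

/-- The infinite power of the symmetric group on three letters. -/
abbrev G : Type := ℕ → F

/-- Evaluation of a word with constants at `g`. -/
def ev (g : G) : Monoid.Coprod G (Multiplicative ℤ) →* G :=
  Monoid.Coprod.lift (MonoidHom.id G) (zpowersHom G g)

/-- The subbase of the Zariski topology. -/
def Sub : Set (Set G) :=
  {U : Set G | ∃ w : Monoid.Coprod G (Multiplicative ℤ), U = {g : G | ev g w ≠ 1}}

/-- The product topology (with discrete factors). -/
@[reducible] def T : TopologicalSpace G := @Pi.topologicalSpace ℕ (fun _ => F) (fun _ => ⊥)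

theorem center_trivial : ∀ k : F, (∀ h : F, k * h * k⁻¹ * h⁻¹ = 1) → k = 1 := by decide

/-- The variable of the words. -/
def X : Monoid.Coprod G (Multiplicative ℤ) := Monoid.Coprod.inr (Multiplicative.ofAdd 1)

theorem ev_X (g : G) : ev g X = g := by
  simp [ev, X]

/-- The commutator word at coordinate `i`. -/
def wd (i : ℕ) (f h : F) : Monoid.Coprod G (Multiplicative ℤ) :=
  X * Monoid.Coprod.inl (Pi.mulSingle i (f⁻¹ * h * f)) * X⁻¹ * Monoid.Coprod.inl (Pi.mulSingle i h⁻¹)

theorem ev_inl (g c : G) : ev g (Monoid.Coprod.inl c) = c := by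
  simp [ev]

theorem ev_wd (i : ℕ) (f h : F) (g : G) (j : ℕ) :
    ev g (wd i f h) j =
      g j * (Pi.mulSingle i (f⁻¹ * h * f) : G) j * (g j)⁻¹ * (Pi.mulSingle i h⁻¹ : G) j := by
  rw [wd, map_mul, map_mul, map_mul, map_inv, ev_X, ev_inl, ev_inl]
  rfl

theorem mem_iff (i : ℕ) (f : F) (g : G) :
    g i = f ↔ ∀ h : F, ev g (wd i f h) = 1 := by
  constructor
  · intro hg h
    funext j
    rw [ev_wd]
    by_cases hj : j = i
    · subst hj
      simp only [Pi.mulSingle_eq_same, Pi.one_apply, hg]
      group
    · simp [Pi.mulSingle_eq_of_ne hj]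
  · intro H
    have : ∀ h : F, (g i * f⁻¹) * h * (g i * f⁻¹)⁻¹ * h⁻¹ = 1 := by
      intro h
      have := congrFun (H h) i
      rw [ev_wd] at this
      simp only [Pi.mulSingle_eq_same, Pi.one_apply] at this
      rw [← this]
      group
    have h1 := center_trivial _ this
    exact mul_inv_eq_one.mp h1

theorem open_ne (i : ℕ) (f : F) :
    @IsOpen G (TopologicalSpace.generateFrom Sub) {g | g i ≠ f} := by
  have : {g : G | g i ≠ f} = ⋃ h : F, {g : G | ev g (wd i f h) ≠ 1} := by
    ext g
    simp only [Set.mem_ofPred_eq, Set.mem_iUnion, ne_eq]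
    rw [mem_iff i f g]
    push Not
    rfl
  rw [this]
  refine @isOpen_iUnion G F (TopologicalSpace.generateFrom Sub) _ (fun h => ?_)
  exact TopologicalSpace.isOpen_generateFrom_of_mem ⟨_, rfl⟩

theorem open_eq (i : ℕ) (f : F) :
    @IsOpen G (TopologicalSpace.generateFrom Sub) {g | g i = f} := by
  have : {g : G | g i = f} = ⋂ f' : {f' : F // f' ≠ f}, {g : G | g i ≠ f'} := by
    ext g
    simp only [Set.mem_ofPred_eq, Set.mem_iInter, ne_eq, Subtype.forall]
    constructor
    · intro h f' hf' h'
      exact hf' (h'.symm.trans h)
    · intro h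
      by_contra hne
      exact h (g i) hne rfl
  rw [this]
  refine @isOpen_iInter_of_finite G _ (TopologicalSpace.generateFrom Sub) _ _ (fun f' => ?_)
  exact open_ne i f'

theorem cont_ev (w : Monoid.Coprod G (Multiplicative ℤ)) :
    @Continuous G G T T (fun g => ev g w) := by
  letI : TopologicalSpace F := ⊥
  haveI : DiscreteTopology F := ⟨rfl⟩
  change Continuous (fun g : G => ev g w)
  induction w using Monoid.Coprod.induction_on with
  | inl m => exact (continuous_const (y := m)).congr (fun g => by simp [ev])
  | inr n => exact (continuous_zpow n.toAdd).congr (fun g => by simp [ev, zpowersHom_apply])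
  | mul x y hx hy => exact (hx.mul hy).congr (fun g => by simp)

theorem T_eq : T = TopologicalSpace.generateFrom Sub := by
  apply le_antisymm
  · apply le_generateFrom
    rintro U ⟨w, rfl⟩
    letI : TopologicalSpace F := ⊥
    haveI : DiscreteTopology F := ⟨rfl⟩
    have hc : Continuous (fun g : G => ev g w) := cont_ev w
    have : IsClosed {g : G | ev g w = 1} := isClosed_eq hc continuous_const
    exact this.isOpen_compl
  · -- the Zariski topology is finer than the product topology
    unfold T Pi.topologicalSpace
    refine le_iInf (fun i => ?_)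
    rw [← continuous_iff_le_induced]
    refine @Continuous.mk _ _ (TopologicalSpace.generateFrom Sub) ⊥ _ (fun s _ => ?_)
    have : (fun g : G => g i) ⁻¹' s = ⋃ f : s, {g : G | g i = f} := by
      ext g
      simp
    rw [this]
    exact @isOpen_iUnion G _ (TopologicalSpace.generateFrom Sub) _ (fun f => open_eq i f)

theorem compact_T : @IsCompact G T Set.univ := by
  letI : TopologicalSpace F := ⊥
  haveI : DiscreteTopology F := ⟨rfl⟩
  exact (isCompact_univ : IsCompact (Set.univ : Set G))

theorem not_noetherian : ¬ @TopologicalSpace.NoetherianSpace G T := by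
  letI : TopologicalSpace F := ⊥
  haveI : DiscreteTopology F := ⟨rfl⟩
  intro h
  have h' : TopologicalSpace.NoetherianSpace G := h
  have : Finite G := TopologicalSpace.NoetherianSpace.finite
  exact not_finite G

end Pool.Agent.TH960.ZarCompact
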