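import Mathlib
import Pool.Agent.TH881.RK.DefsX
import Pool.Agent.TH496.J5133z

/-! # Chords for the partial sums of a log-concave sequence (job 5317, EX-2) -/

set_option autoImplicit false

namespace Pool.Agent.TH960.J5317

open Finset Filter Topology
open Pool.Agent.TH881.RK
open Pool.Agent.TH496.J5133z (G G_log G_concave)

/-- the geometric sequence -/
lemma geo (r : ℝ) (k : ℕ) (hr : 0 < r) (hr1 : r ≤ 1) (hk : 1 ≤ k) :
    Real.log ((∑ i ∈ range (k + 2), r ^ i) / ∑ i ∈ range (k + 1), r ^ i) *
        Real.log (((k : ℝ) + 1) / k) ≤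
      Real.log ((∑ i ∈ range (k + 1), r ^ i) / ∑ i ∈ range k, r ^ i) *
        Real.log (((k : ℝ) + 2) / ((k : ℝ) + 1)) := by
  have hk0 : (0 : ℝ) < k := by exact_mod_cast hk
  rcases hr1.eq_or_lt with h1 | h1
  · subst h1
    simp only [one_pow, sum_const, card_range, nsmul_eq_mul, mul_one]
    push_cast
    rw [mul_comm]
  · have hpow : ∀ j : ℕ, 1 ≤ j → r ^ j < 1 := fun j hj => pow_lt_one₀ hr.le h1 (by omega)
    have hp : ∀ j : ℕ, 1 ≤ j → 0 < 1 - r ^ j := fun j hj => sub_pos.2 (hpow j hj)
    have hr' : 0 < 1 - r := by linarith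
    have hsum : ∀ j : ℕ, ∑ i ∈ range j, r ^ i = (1 - r ^ j) / (1 - r) := by
      intro j
      rw [geom_sum_eq h1.ne, ← neg_div_neg_eq]
      ring_nf
    have hlog : ∀ i j : ℕ, 1 ≤ i → 1 ≤ j →
        Real.log ((∑ l ∈ range i, r ^ l) / ∑ l ∈ range j, r ^ l) =
          Real.log (1 - r ^ i) - Real.log (1 - r ^ j) := by
      intro i j hi hj
      rw [hsum, hsum, div_div_div_cancel_right₀ hr'.ne',
        Real.log_div (hp i hi).ne' (hp j hj).ne']
    have hc : 0 < -Real.log r := by
      have := Real.log_neg hr h1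
      linarith
    have hxy : Real.log (k : ℝ) < Real.log ((k + 1 : ℕ) : ℝ) := by
      apply Real.log_lt_log hk0
      push_cast; linarith
    have hyz : Real.log ((k + 1 : ℕ) : ℝ) < Real.log ((k + 2 : ℕ) : ℝ) := by
      apply Real.log_lt_log
      · push_cast; linarith
      · push_cast; linarith
    have hs := (G_concave hc).slope_anti_adjacent (Set.mem_univ _) (Set.mem_univ _) hxy hyz
    rw [G_log hr hk, G_log hr (by omega : 1 ≤ k + 1), G_log hr (by omega : 1 ≤ k + 2),
      div_le_div_iff₀ (sub_pos.2 hyz) (sub_pos.2 hxy)] at hs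
    rw [hlog _ _ (by omega) (by omega), hlog _ _ (by omega) (by omega),
      Real.log_div (by linarith) hk0.ne', Real.log_div (by linarith) (by linarith)]
    push_cast at hs
    exact hs

/-- `log (1 + c e) / log (1 + e)` is nonincreasing -/
lemma mono {c e₀ e : ℝ} (hc : 1 ≤ c) (h0 : 0 < e₀) (he : e₀ ≤ e) :
    Real.log (1 + c * e) * Real.log (1 + e₀) ≤ Real.log (1 + c * e₀) * Real.log (1 + e) := by
  have hepos : 0 < e := lt_of_lt_of_le h0 he
  have hc0 : 0 < c := by linarith
  have hl : 0 < Real.log (1 + e) := Real.log_pos (by linarith)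
  have hl0 : 0 < Real.log (1 + e₀) := Real.log_pos (by linarith)
  set t : ℝ := Real.log (1 + e₀) / Real.log (1 + e) with ht
  have ht0 : 0 ≤ t := by positivity
  have ht1 : t ≤ 1 := by
    rw [ht, div_le_one hl]
    exact Real.log_le_log (by linarith) (by linarith)
  have hce : 0 < c * e := by positivity
  have hX : (1 + e) ^ t = 1 + e₀ := by
    rw [Real.rpow_def_of_pos (by linarith), ht, mul_div_cancel₀ _ hl.ne',
      Real.exp_log (by linarith)]
  have m1 : (1 + c * e) ∈ Set.Ici (0 : ℝ) := by simp only [Set.mem_Ici]; linarith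
  have m2 : (1 : ℝ) ∈ Set.Ici (0 : ℝ) := by simp
  have w1 : (0 : ℝ) ≤ 1 / c := by positivity
  have w2 : (0 : ℝ) ≤ 1 - 1 / c := by rw [sub_nonneg, div_le_one hc0]; exact hc
  have hconc := (Real.concaveOn_rpow ht0 ht1).2 m1 m2 w1 w2 (by ring)
  simp only [smul_eq_mul, Real.one_rpow, mul_one] at hconc
  have e1 : 1 / c * (1 + c * e) + (1 - 1 / c) = 1 + e := by
    field_simp
    ring
  rw [e1, hX] at hconc
  have h2 : (1 + c * e) ^ t ≤ 1 + c * e₀ := by
    have := mul_le_mul_of_nonneg_left hconc hc0.le
    have e2 : c * (1 / c * (1 + c * e) ^ t + (1 - 1 / c)) = (1 + c * e) ^ t + (c - 1) := by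
      field_simp
    rw [e2] at this
    linarith
  have h3 := Real.log_le_log (by positivity) h2
  rw [Real.log_rpow (by linarith)] at h3
  rw [ht, div_mul_eq_mul_div, div_le_iff₀ hl] at h3
  linarith

/-- the slopes decrease -/
lemma slope (n : ℕ) (d : ℕ → ℝ) (h0 : 0 < d 0) (hd : ∀ j, 0 ≤ d j)
    (hm : ∀ j, j + 1 < n → d (j + 1) ≤ d j) (hlc : ∀ j, j + 2 < n → d j * d (j + 2) ≤ d (j + 1) ^ 2)
    (k : ℕ) (hk : 1 ≤ k) (hkn : k + 1 < n) :
    Real.log ((∑ i ∈ range (k + 2), d i) / ∑ i ∈ range (k + 1), d i) *
        Real.log (((k : ℝ) + 1) / k) ≤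
      Real.log ((∑ i ∈ range (k + 1), d i) / ∑ i ∈ range k, d i) *
        Real.log (((k : ℝ) + 2) / ((k : ℝ) + 1)) := by
  have hk0 : (0 : ℝ) < k := by exact_mod_cast hk
  have hQ : ∀ m : ℕ, 1 ≤ m → 0 < ∑ i ∈ range m, d i := by
    intro m hm1
    obtain ⟨m, rfl⟩ : ∃ l, m = l + 1 := ⟨m - 1, by omega⟩
    rw [Finset.sum_range_succ']
    have := Finset.sum_nonneg (s := range m) (f := fun i => d (i + 1)) (fun i _ => hd _)
    linarith
  have hA : 0 < Real.log (((k : ℝ) + 1) / k) := Real.log_pos (by
    rw [one_lt_div hk0]; linarith)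
  have hB : 0 < Real.log (((k : ℝ) + 2) / ((k : ℝ) + 1)) := Real.log_pos (by
    rw [one_lt_div (by linarith)]; linarith)
  set Q := ∑ i ∈ range k, d i with hQd
  have hQ0 : 0 < Q := hQ k hk
  have hQ1 : ∑ i ∈ range (k + 1), d i = Q + d k := by rw [Finset.sum_range_succ]
  have hQ2 : ∑ i ∈ range (k + 2), d i = Q + d k + d (k + 1) := by
    rw [Finset.sum_range_succ, hQ1]
  rw [hQ1, hQ2]
  rcases (hd (k + 1)).eq_or_lt with hb | hb
  · rw [← hb, add_zero, div_self (by have := hd k; positivity), Real.log_one, zero_mul]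
    apply mul_nonneg _ hB.le
    apply Real.log_nonneg
    rw [one_le_div hQ0]
    have := hd k
    linarith
  · have hak : d (k + 1) ≤ d k := hm k hkn
    have ha : 0 < d k := lt_of_lt_of_le hb hak
    set r : ℝ := d (k + 1) / d k with hr
    have hr0 : 0 < r := by positivity
    have hr1 : r ≤ 1 := (div_le_one ha).2 hak
    -- positivity below `k`
    have hpos : ∀ j, j ≤ k → 0 < d (k - j) := by
      intro j
      induction j with
      | zero => intro _; simpa using ha
      | succ j ih =>
        intro hj
        have h1 := ih (by omega)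
        have h2 := hm (k - (j + 1)) (by omega)
        have e : k - (j + 1) + 1 = k - j := by omega
        rw [e] at h2
        linarith
    -- the ratios
    have hrat : ∀ j, j ≤ k → r * d (k - j) ≤ d (k - j + 1) := by
      intro j
      induction j with
      | zero =>
        intro _
        rw [Nat.sub_zero, hr, div_mul_cancel₀ _ ha.ne']
      | succ j ih =>
        intro hj
        have h1 := ih (by omega)
        have h2 := hlc (k - (j + 1)) (by omega)
        have e : k - (j + 1) + 1 = k - j := by omega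
        have e' : k - (j + 1) + 2 = k - j + 1 := by omega
        rw [e, e'] at h2
        rw [e]
        have p1 := hpos j (by omega)
        have p2 := hpos (j + 1) hj
        have h3 : r * d (k - (j + 1)) * d (k - j) ≤ d (k - j) * d (k - j) := by
          calc r * d (k - (j + 1)) * d (k - j) = d (k - (j + 1)) * (r * d (k - j)) := by ring
            _ ≤ d (k - (j + 1)) * d (k - j + 1) := mul_le_mul_of_nonneg_left h1 p2.le
            _ ≤ d (k - j) ^ 2 := h2
            _ = _ := by ring
        exact le_of_mul_le_mul_right h3 p1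
    have hgeo : ∀ j, j ≤ k → r ^ j * d (k - j) ≤ d k := by
      intro j
      induction j with
      | zero => intro _; simp
      | succ j ih =>
        intro hj
        have h1 := ih (by omega)
        have h2 := hrat (j + 1) hj
        have e : k - (j + 1) + 1 = k - j := by omega
        rw [e] at h2
        calc r ^ (j + 1) * d (k - (j + 1)) = r ^ j * (r * d (k - (j + 1))) := by ring
          _ ≤ r ^ j * d (k - j) := mul_le_mul_of_nonneg_left h2 (by positivity)
          _ ≤ d k := h1
    set T : ℕ → ℝ := fun j => ∑ i ∈ range j, r ^ i with hT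
    have hT0 : ∀ j, 1 ≤ j → 0 < T j := by
      intro j hj
      apply Finset.sum_pos
      · intro i _; positivity
      · exact ⟨0, Finset.mem_range.2 (by omega)⟩
    -- `r ^ k * Q ≤ d k * T k`
    have hsum : r ^ k * Q ≤ d k * T k := by
      rw [hQd, hT, Finset.mul_sum, Finset.mul_sum]
      apply Finset.sum_le_sum
      intro i hi
      have hik : i < k := Finset.mem_range.1 hi
      have h1 := hgeo (k - i) (by omega)
      have e : k - (k - i) = i := by omega
      rw [e] at h1
      have e2 : r ^ k = r ^ i * r ^ (k - i) := by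
        rw [← pow_add]
        congr 1
        omega
      calc r ^ k * d i = r ^ i * (r ^ (k - i) * d i) := by rw [e2]; ring
        _ ≤ r ^ i * d k := mul_le_mul_of_nonneg_left h1 (by positivity)
        _ = d k * r ^ i := mul_comm _ _
    set e : ℝ := d k / Q with he
    set e₀ : ℝ := r ^ k / T k with he0
    have hT0k := hT0 k hk
    have he00 : 0 < e₀ := by positivity
    have hee : e₀ ≤ e := by
      rw [he0, he, div_le_div_iff₀ hT0k hQ0]
      exact hsum
    have hepos : 0 < e := lt_of_lt_of_le he00 hee
    have hg := geo r k hr0 hr1 hk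
    have t1 : T (k + 1) / T k = 1 + e₀ := by
      have : T (k + 1) = T k + r ^ k := by simp only [hT]; rw [Finset.sum_range_succ]
      rw [this, he0]
      field_simp
    have t2 : T (k + 2) / T (k + 1) = (1 + (1 + r) * e₀) / (1 + e₀) := by
      have h1 : T (k + 1) = T k + r ^ k := by simp only [hT]; rw [Finset.sum_range_succ]
      have h2 : T (k + 2) = T k + r ^ k + r ^ (k + 1) := by
        simp only [hT]; rw [Finset.sum_range_succ, Finset.sum_range_succ]
      rw [h1, h2, he0, pow_succ]
      have : T k + r ^ k ≠ 0 := by positivity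
      field_simp
      ring
    have q1 : (Q + d k) / Q = 1 + e := by
      rw [he]
      field_simp
    have q2 : (Q + d k + d (k + 1)) / (Q + d k) = (1 + (1 + r) * e) / (1 + e) := by
      have : d (k + 1) = r * d k := by rw [hr, div_mul_cancel₀ _ ha.ne']
      rw [this, he]
      have h2 : Q + d k ≠ 0 := by positivity
      field_simp
      ring
    change Real.log (T (k + 2) / T (k + 1)) * _ ≤ Real.log (T (k + 1) / T k) * _ at hg
    rw [t1, t2, Real.log_div (by positivity) (by positivity)] at hg
    rw [q1, q2, Real.log_div (by positivity) (by positivity)]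
    have hmn := mono (c := 1 + r) (by linarith) he00 hee
    have hl0 : 0 < Real.log (1 + e₀) := Real.log_pos (by linarith)
    have hl : 0 < Real.log (1 + e) := Real.log_pos (by linarith)
    set A := Real.log (((k : ℝ) + 1) / k)
    set B := Real.log (((k : ℝ) + 2) / ((k : ℝ) + 1))
    have h5 : Real.log (1 + (1 + r) * e₀) * A ≤ Real.log (1 + e₀) * (A + B) := by linarith
    have h6 : Real.log (1 + (1 + r) * e) * A ≤ Real.log (1 + e) * (A + B) := by
      have h7 : Real.log (1 + (1 + r) * e) * A * Real.log (1 + e₀) ≤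
          Real.log (1 + e) * (A + B) * Real.log (1 + e₀) := by
        calc Real.log (1 + (1 + r) * e) * A * Real.log (1 + e₀)
            = (Real.log (1 + (1 + r) * e) * Real.log (1 + e₀)) * A := by ring
          _ ≤ (Real.log (1 + (1 + r) * e₀) * Real.log (1 + e)) * A :=
              mul_le_mul_of_nonneg_right hmn hA.le
          _ = (Real.log (1 + (1 + r) * e₀) * A) * Real.log (1 + e) := by ring
          _ ≤ (Real.log (1 + e₀) * (A + B)) * Real.log (1 + e) :=
              mul_le_mul_of_nonneg_right h5 hl.le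
          _ = _ := by ring
      exact le_of_mul_le_mul_right h7 hl0
    linarith

theorem stSl : StSl := by
  intro n d hn h0 hd hm hlc k hk hkn
  have hQ : ∀ m : ℕ, 1 ≤ m → 0 < ∑ i ∈ range m, d i := by
    intro m hm1
    obtain ⟨m, rfl⟩ : ∃ l, m = l + 1 := ⟨m - 1, by omega⟩
    rw [Finset.sum_range_succ']
    have := Finset.sum_nonneg (s := range m) (f := fun i => d (i + 1)) (fun i _ => hd _)
    linarith
  set Q : ℕ → ℝ := fun m => ∑ i ∈ range m, d i with hQd
  set L : ℕ → ℝ := fun m => Real.log (Q m / d 0) with hL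
  set x : ℕ → ℝ := fun m => Real.log m with hx
  have hQ1 : Q 1 = d 0 := by simp [hQd]
  have hL1 : L 1 = 0 := by simp only [hL]; rw [hQ1, div_self h0.ne', Real.log_one]
  have hx1 : x 1 = 0 := by simp [hx]
  have hLd : ∀ m, 1 ≤ m → L (m + 1) - L m = Real.log (Q (m + 1) / Q m) := by
    intro m hm1
    have p1 := hQ m hm1
    have p2 := hQ (m + 1) (by omega)
    simp only [hL]
    rw [Real.log_div p2.ne' h0.ne', Real.log_div p1.ne' h0.ne', Real.log_div p2.ne' p1.ne']
    ring
  have hxd : ∀ m, 1 ≤ m → x (m + 1) - x m = Real.log (((m : ℝ) + 1) / m) := by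
    intro m hm1
    have : (0 : ℝ) < m := by exact_mod_cast hm1
    simp only [hx]
    push_cast
    rw [Real.log_div (by linarith) this.ne']
  have hxpos : ∀ m, 1 ≤ m → 0 < x (m + 1) - x m := by
    intro m hm1
    have h1 : (0 : ℝ) < m := by exact_mod_cast hm1
    rw [hxd m hm1]
    apply Real.log_pos
    rw [one_lt_div h1]
    linarith
  set s : ℕ → ℝ := fun m => (L (m + 1) - L m) / (x (m + 1) - x m) with hs
  have hsm : ∀ m, 1 ≤ m → s m * (x (m + 1) - x m) = L (m + 1) - L m := by
    intro m hm1
    simp only [hs]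
    rw [div_mul_cancel₀ _ (hxpos m hm1).ne']
  -- slopes
  have hstep : ∀ m, 1 ≤ m → m + 1 < n → s (m + 1) ≤ s m := by
    intro m hm1 hmn
    have h1 := slope n d h0 hd hm hlc m hm1 hmn
    simp only [hs]
    rw [div_le_div_iff₀ (hxpos _ (by omega)) (hxpos m hm1), hLd m hm1, hLd (m + 1) (by omega),
      hxd m hm1, hxd (m + 1) (by omega)]
    have e : ((m + 1 : ℕ) : ℝ) + 1 = (m : ℝ) + 2 := by push_cast; ring
    rw [e]
    push_cast
    exact h1
  have hA : ∀ j m, 1 ≤ m → m + j < n → s (m + j) ≤ s m := by
    intro j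
    induction j with
    | zero => intro m _ _; exact le_refl _
    | succ j ih =>
      intro m hm1 hmj
      have h1 := ih m hm1 (by omega)
      have h2 := hstep (m + j) (by omega) (by omega)
      exact h2.trans h1
  have hB : ∀ m, m < n → ∀ i, 1 ≤ i → i ≤ m → s m * x i ≤ L i := by
    intro m hmn i hi
    induction i, hi using Nat.le_induction with
    | base => intro _; rw [hx1, hL1, mul_zero]
    | succ i hi ih =>
      intro him
      have h1 := ih (by omega)
      have h2 := hA (m - i) i hi (by omega)
      have e : i + (m - i) = m := by omega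
      rw [e] at h2
      have h3 := mul_le_mul_of_nonneg_right h2 (hxpos i hi).le
      rw [hsm i hi] at h3
      have h4 : s m * x (i + 1) = s m * x i + s m * (x (i + 1) - x i) := by ring
      rw [h4]
      linarith
  have hC : ∀ m, k ≤ m → m ≤ n → L m * x k ≤ L k * x m := by
    intro m hkm
    induction m, hkm using Nat.le_induction with
    | base => intro _; exact le_refl _
    | succ m hkm ih =>
      intro hmn
      have h1 := ih (by omega)
      have h2 := hB m (by omega) k hk hkm
      have h3 := hsm m (by omega)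
      have h4 := mul_le_mul_of_nonneg_right h2 (hxpos m (by omega)).le
      have h5 : L (m + 1) * x k = L m * x k + s m * x k * (x (m + 1) - x m) := by
        have : L (m + 1) = L m + s m * (x (m + 1) - x m) := by linarith
        rw [this]; ring
      rw [h5]
      linarith
  have hfin := hC n hkn le_rfl
  have hn0 : (1 : ℝ) < n := by exact_mod_cast (by omega : 1 < n)
  have hxn : 0 < x n := Real.log_pos hn0
  have p1 := hQ k hk
  have p2 := hQ n (by omega)
  have hb : 0 < Q n / d 0 := by positivity
  change d 0 * (Q n / d 0) ^ (x k / x n) ≤ Q k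
  rw [Real.rpow_def_of_pos hb]
  have h6 : Real.log (Q n / d 0) * (x k / x n) ≤ Real.log (Q k / d 0) := by
    change L n * (x k / x n) ≤ L k
    rw [← mul_div_assoc, div_le_iff₀ hxn]
    exact hfin
  calc d 0 * Real.exp (Real.log (Q n / d 0) * (x k / x n))
      ≤ d 0 * Real.exp (Real.log (Q k / d 0)) :=
        mul_le_mul_of_nonneg_left (Real.exp_le_exp.2 h6) h0.le
    _ = Q k := by
        rw [Real.exp_log (by positivity)]
        field_simp

end Pool.Agent.TH960.J5317
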